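import Mathlib
import Pool.Agent.K3h3.Cat4

/-!
# The sum of Catalan times second-order Catalan numbers of the second kind, modulo `p²`

Problem MP_77f5f4_nt, Q1, second congruence.  For every prime `p > 3`,
`∑_{k<p} C_k \bar C_k^{(2)} / 27^k ≡ 9 p - 1 - 6 * 3^(p-1) (mod p²)`, in particular the sum is
`≡ -7 (mod p)`.

Idea of the proof.  For rational `x` let `V(x) = ∑_{j<p} binom(x+1,j) binom(-x,j)`.  These sums
satisfy `(x+1) V(x) + (x-1) V(x-1) = 2 x ∏_{0<=j<p-1} (j²-x²)/(j+1)²`.  The right side is `0`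
modulo `p²` unless `x ≡ 0, 1, -1 (mod p)`; at `x = p t + 1` it cancels against `V(p t)`.  So
`V(-1/3) ≡ 0 (mod p²)`, and the sum in question is `9 V(-1/3) - 9` plus a single term, the term
`k = p` of the shifted series, which is evaluated with Wolstenholme's congruence for the harmonic
sum.
-/

set_option autoImplicit false

open Finset

namespace Pool.Agent.Results.MP_77f5f4_nt.SecondKindModSquare

/-- The second-order Catalan number of the second kind, `2 binom(3k,k) / (k+1)`. -/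
def cat2' (k : ℕ) : ℚ := 2 * ((3 * k).choose k : ℚ) / (k + 1)

/-- `x ≡ y (mod p^m)` in the ring of the rational numbers whose denominator is prime to `p`:
`x - y = p^m * a / b` for some integers `a`, `b` with `b` prime to `p`. -/
def CongMod (p m : ℕ) (x y : ℚ) : Prop :=
  ∃ a b : ℤ, ¬ (p : ℤ) ∣ b ∧ x - y = (p : ℚ) ^ m * (a / b)

theorem congMod_of_M {p : ℕ} [Fact p.Prime] {m : ℕ} {x y : ℚ}
    (h : Pool.Agent.K3h3.Cat.M p m (x - y)) : CongMod p m x y := by
  obtain ⟨z, hz, e⟩ := h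
  refine ⟨z.num, z.den, ?_, ?_⟩
  · intro h
    exact hz (by exact_mod_cast h)
  · rw [e]
    congr 1
    exact_mod_cast (Rat.num_div_den z).symm

theorem cast_catalan (k : ℕ) : (catalan k : ℚ) = ((2 * k).choose k : ℚ) / (k + 1) := by
  have h := succ_mul_catalan_eq_centralBinom k
  have h2 : ((k : ℚ) + 1) * (catalan k : ℚ) = ((2 * k).choose k : ℚ) := by
    rw [Nat.centralBinom_eq_two_mul_choose] at h
    exact_mod_cast h
  have : (k : ℚ) + 1 ≠ 0 := by positivity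
  rw [← h2]
  field_simp

/-- For every prime `p > 3`, `∑_{k<p} C_k \bar C_k^{(2)} / 27^k` is
`≡ 9 p - 1 - 6 * 3^(p-1) (mod p²)` and `≡ -7 (mod p)`. -/
theorem result (p : ℕ) (hp : p.Prime) (h3 : 3 < p) :
    CongMod p 2 (∑ k ∈ range p, (catalan k : ℚ) * cat2' k / 27 ^ k)
      (9 * p - 1 - 6 * 3 ^ (p - 1)) ∧
    CongMod p 1 (∑ k ∈ range p, (catalan k : ℚ) * cat2' k / 27 ^ k) (-7) := by
  have hf : Fact p.Prime := ⟨hp⟩
  have e2 : ∑ k ∈ range p, (catalan k : ℚ) * cat2' k / 27 ^ k =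
      ∑ k ∈ range p, 2 * Pool.Agent.K3h3.Cat.a k / (k + 1) ^ 2 := by
    refine sum_congr rfl fun k _ => ?_
    rw [cast_catalan]
    unfold cat2' Pool.Agent.K3h3.Cat.a
    have q1 : (k : ℚ) + 1 ≠ 0 := by positivity
    field_simp
  rw [e2]
  have hmod : p % 3 = 1 ∨ p % 3 = 2 := by
    have : p % 3 ≠ 0 := by
      intro h
      have h2 := (Nat.prime_dvd_prime_iff_eq Nat.prime_three hp).1 (Nat.dvd_of_mod_eq_zero h)
      omega
    omega
  have hthree : ((3 : ℕ) : ℚ)⁻¹ ∈ Pool.Agent.K3h3.Cat.Zp p :=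
    Pool.Agent.K3h3.Cat.inv_mem (Pool.Agent.K3h3.Cat.not_dvd_of_lt (by omega) h3)
  rcases hmod with h | h
  · -- `-1/3 = p (-1/3) + (p-1)/3`
    have ht : -((3 : ℕ) : ℚ)⁻¹ ∈ Pool.Agent.K3h3.Cat.Zp p := neg_mem hthree
    have hr : ((((p - 1) / 3 : ℕ)) : ℚ) = (p - 1) / 3 := by
      rw [Nat.cast_div (by omega) (by norm_num), Nat.cast_sub hp.one_lt.le]
      norm_num
    have hx : (-1 / 3 : ℚ) = p * (-((3 : ℕ) : ℚ)⁻¹) + ((p - 1) / 3 : ℕ) := by
      rw [hr]; push_cast; ring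
    refine ⟨congMod_of_M ?_, congMod_of_M ?_⟩
    · exact Pool.Agent.K3h3.Cat.main2_sq h3 _ ht ((p - 1) / 3) (by omega) (by omega) hx
    · have := Pool.Agent.K3h3.Cat.main2 h3 _ ht ((p - 1) / 3) (by omega) (by omega) hx
      convert this using 1
      ring
  · have ht : -(2 * ((3 : ℕ) : ℚ)⁻¹) ∈ Pool.Agent.K3h3.Cat.Zp p :=
      neg_mem (mul_mem (by exact_mod_cast Pool.Agent.K3h3.Cat.mem_nat 2) hthree)
    have hr : ((((2 * p - 1) / 3 : ℕ)) : ℚ) = (2 * p - 1) / 3 := by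
      rw [Nat.cast_div (by omega) (by norm_num), Nat.cast_sub (by omega)]
      norm_num
    have hx : (-1 / 3 : ℚ) = p * (-(2 * ((3 : ℕ) : ℚ)⁻¹)) + ((2 * p - 1) / 3 : ℕ) := by
      rw [hr]; push_cast; ring
    refine ⟨congMod_of_M ?_, congMod_of_M ?_⟩
    · exact Pool.Agent.K3h3.Cat.main2_sq h3 _ ht ((2 * p - 1) / 3) (by omega) (by omega) hx
    · have := Pool.Agent.K3h3.Cat.main2 h3 _ ht ((2 * p - 1) / 3) (by omega) (by omega) hx
      convert this using 1
      ring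

end Pool.Agent.Results.MP_77f5f4_nt.SecondKindModSquare
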